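import Mathlib

/-!
# Arc bijections of strong tournaments that preserve 4-circuits

The tournament `U n` on `{0, …, n-1}` has the arcs `i → i + 1` and `j → i` for `j ≥ i + 2`; its only
4-circuits are `i → i+1 → i+2 → i+3 → i`.  None of them uses the arc `4 → 0`.  Reversing
this arc gives a strong tournament that is neither isomorphic to `U n` nor to its converse, and the
obvious bijection of the arcs maps 4-circuits into 4-circuits.
-/

namespace Pool.Agent.Results.MP_ebd9af_co.ManyCounterexamples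

/-- A tournament on `V`: a loopless digraph in which every pair of distinct vertices is joined by
exactly one arc. -/
structure Tournament (V : Type) where
  /-- `arc u v`: there is an arc from `u` to `v` -/
  arc : V → V → Prop
  /-- there are no loops -/
  loopless : ∀ v, ¬ arc v v
  /-- two distinct vertices are joined by exactly one arc -/
  total : ∀ u v, u ≠ v → (arc u v ↔ ¬ arc v u)

namespace Tournament

variable {V W : Type}

/-- The set of arcs. -/
def arcs (T : Tournament V) : Set (V × V) := {p | T.arc p.1 p.2}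

/-- The converse tournament: all arcs are reversed. -/
def converse (T : Tournament V) : Tournament V where
  arc u v := T.arc v u
  loopless := T.loopless
  total u v h := T.total v u h.symm

/-- A tournament is strong if for any two vertices `u`, `v` there is a directed path from `u`
to `v`. -/
def Strong (T : Tournament V) : Prop := ∀ u v, Relation.ReflTransGen T.arc u v

/-- Isomorphism of tournaments. -/
def Iso (T : Tournament V) (T' : Tournament W) : Prop :=
  ∃ e : V ≃ W, ∀ u v, T.arc u v ↔ T'.arc (e u) (e v)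

/-- `C` is the arc set of a `k`-circuit of `T`: there are distinct vertices `v 0, …, v (k-1)` with
the arcs `v 0 → v 1 → ⋯ → v (k-1) → v 0`, and `C` is the set of these arcs. -/
def IsCircuit (T : Tournament V) (k : ℕ) [NeZero k] (C : Set (V × V)) : Prop :=
  ∃ v : Fin k → V, Function.Injective v ∧ (∀ i, T.arc (v i) (v (i + 1))) ∧
    C = Set.range fun i => (v i, v (i + 1))

/-- The bijection `φ` from the arcs of `T` to the arcs of `T'` maps `k`-circuits into `k`-circuits:
for every `k`-circuit `C` of `T` the image of `C` is the arc set of a `k`-circuit of `T'`. -/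
def MapsCircuits (T : Tournament V) (T' : Tournament W) (k : ℕ) [NeZero k]
    (φ : T.arcs ≃ T'.arcs) : Prop :=
  ∀ C : Set (V × V), T.IsCircuit k C →
    T'.IsCircuit k {q | ∃ (p : V × V) (hp : p ∈ T.arcs), p ∈ C ∧ (φ ⟨p, hp⟩ : W × W) = q}

end Tournament

open Tournament

/-- The tournament with the arcs `i → i + 1` and `j → i` for `j ≥ i + 2`. -/
def U (n : ℕ) : Tournament (Fin n) where
  arc i j := (j : ℕ) = i + 1 ∨ (j : ℕ) + 2 ≤ i
  loopless v h := by omega
  total u v h := by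
    have : (u : ℕ) ≠ v := fun e => h (Fin.ext e)
    omega

/-- The tournament `U n` with the arc `4 → 0` reversed. -/
def U' (n : ℕ) : Tournament (Fin n) where
  arc i j := (j : ℕ) = i + 1 ∨ ((j : ℕ) + 2 ≤ i ∧ ¬ ((i : ℕ) = 4 ∧ (j : ℕ) = 0)) ∨
    ((i : ℕ) = 0 ∧ (j : ℕ) = 4)
  loopless v h := by omega
  total u v h := by
    have : (u : ℕ) ≠ v := fun e => h (Fin.ext e)
    omega

theorem reach_up {n : ℕ} (T : Tournament (Fin n)) (hT : ∀ i j : Fin n, (j : ℕ) = i + 1 → T.arc i j) :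
    ∀ (d : ℕ) (i j : Fin n), (j : ℕ) = i + d → Relation.ReflTransGen T.arc i j := by
  intro d
  induction d with
  | zero =>
    intro i j h
    have : i = j := Fin.ext (by omega)
    subst this
    exact Relation.ReflTransGen.refl
  | succ d ih =>
    intro i j h
    have hj := j.isLt
    exact (ih i ⟨i + d, by omega⟩ rfl).tail (hT _ _ (by simp only; omega))

theorem strong_of {n : ℕ} (hn : 5 ≤ n) (T : Tournament (Fin n))
    (hT : ∀ i j : Fin n, (j : ℕ) = i + 1 → T.arc i j)
    (h1 : ∀ i j : Fin n, 3 ≤ (i : ℕ) → (j : ℕ) = 1 → T.arc i j)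
    (h2 : ∀ i j : Fin n, (i : ℕ) = 3 → (j : ℕ) = 0 → T.arc i j) : T.Strong := by
  have to1 : ∀ i : Fin n, Relation.ReflTransGen T.arc i ⟨1, by omega⟩ := by
    intro i
    rcases Nat.lt_or_ge (i : ℕ) 3 with h | h
    · refine (reach_up T hT (3 - i) i ⟨3, by omega⟩ (by simp only; omega)).tail ?_
      exact h1 _ _ le_rfl rfl
    · exact Relation.ReflTransGen.single (h1 _ _ h rfl)
  have to0 : ∀ i : Fin n, Relation.ReflTransGen T.arc i ⟨0, by omega⟩ := by
    intro i
    refine ((to1 i).trans (reach_up T hT 2 ⟨1, by omega⟩ ⟨3, by omega⟩ rfl)).tail ?_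
    exact h2 _ _ rfl rfl
  intro u v
  exact (to0 u).trans (reach_up T hT v ⟨0, by omega⟩ v (by simp))

/-- The 4-circuits of `U n` do not use the arc `4 → 0`. -/
theorem avoid {n : ℕ} (v : Fin 4 → Fin n) (hv : ∀ i, (U n).arc (v i) (v (i + 1)))
    (i : Fin 4) : ¬ ((v i : ℕ) = 4 ∧ (v (i + 1) : ℕ) = 0) := by
  rintro ⟨h4, h0⟩
  have a1 := hv (i + 1)
  have a2 := hv (i + 1 + 1)
  have a3 := hv (i + 1 + 1 + 1)
  have e : i + 1 + 1 + 1 + 1 = i := (by decide : ∀ j : Fin 4, j + 1 + 1 + 1 + 1 = j) i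
  rw [e] at a3
  simp only [U] at a1 a2 a3
  omega

/-- The bijection of the arcs: the arc `4 → 0` is mapped to `0 → 4`, all others to themselves. -/
noncomputable def phi (n : ℕ) : (U n).arcs ≃ (U' n).arcs where
  toFun p := if h : (p.1.1 : ℕ) = 4 ∧ (p.1.2 : ℕ) = 0 then
      ⟨(p.1.2, p.1.1), by
        right; right; exact ⟨h.2, h.1⟩⟩ else
      ⟨p.1, by
        have hp : (p.1.2 : ℕ) = p.1.1 + 1 ∨ (p.1.2 : ℕ) + 2 ≤ p.1.1 := p.2
        show (p.1.2 : ℕ) = p.1.1 + 1 ∨ ((p.1.2 : ℕ) + 2 ≤ p.1.1 ∧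
          ¬ ((p.1.1 : ℕ) = 4 ∧ (p.1.2 : ℕ) = 0)) ∨ ((p.1.1 : ℕ) = 0 ∧ (p.1.2 : ℕ) = 4)
        omega⟩
  invFun p := if h : (p.1.1 : ℕ) = 0 ∧ (p.1.2 : ℕ) = 4 then
      ⟨(p.1.2, p.1.1), by
        show (p.1.1 : ℕ) = p.1.2 + 1 ∨ (p.1.1 : ℕ) + 2 ≤ p.1.2
        omega⟩ else
      ⟨p.1, by
        have hp : (p.1.2 : ℕ) = p.1.1 + 1 ∨ ((p.1.2 : ℕ) + 2 ≤ p.1.1 ∧
          ¬ ((p.1.1 : ℕ) = 4 ∧ (p.1.2 : ℕ) = 0)) ∨ ((p.1.1 : ℕ) = 0 ∧ (p.1.2 : ℕ) = 4) := p.2
        show (p.1.2 : ℕ) = p.1.1 + 1 ∨ (p.1.2 : ℕ) + 2 ≤ p.1.1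
        omega⟩
  left_inv := by
    rintro ⟨⟨a, b⟩, hp⟩
    have hp' : (b : ℕ) = a + 1 ∨ (b : ℕ) + 2 ≤ a := hp
    by_cases h : (a : ℕ) = 4 ∧ (b : ℕ) = 0
    · simp [h]
    · have h2 : ¬ ((a : ℕ) = 0 ∧ (b : ℕ) = 4) := by omega
      simp only [h, dite_false, h2]
  right_inv := by
    rintro ⟨⟨a, b⟩, hp⟩
    have hp' : (b : ℕ) = a + 1 ∨ ((b : ℕ) + 2 ≤ a ∧
          ¬ ((a : ℕ) = 4 ∧ (b : ℕ) = 0)) ∨ ((a : ℕ) = 0 ∧ (b : ℕ) = 4) := hp
    by_cases h : (a : ℕ) = 0 ∧ (b : ℕ) = 4
    · simp [h]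
    · have h2 : ¬ ((a : ℕ) = 4 ∧ (b : ℕ) = 0) := by omega
      simp only [h, dite_false, h2]

theorem phi_eq {n : ℕ} (p : Fin n × Fin n) (hp : p ∈ (U n).arcs)
    (h : ¬ ((p.1 : ℕ) = 4 ∧ (p.2 : ℕ) = 0)) : ((phi n ⟨p, hp⟩ : (U' n).arcs) : Fin n × Fin n) = p := by
  simp only [phi, Equiv.coe_fn_mk, h, dite_false]

/-- A vertex of `U' n` with at most one out-neighbour is the vertex `1`. -/
theorem one_of {n : ℕ} (hn : 5 ≤ n) (v : Fin n)
    (h : ∀ a b, (U' n).arc v a → (U' n).arc v b → a = b) : (v : ℕ) = 1 := by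
  by_contra hv
  have key : ∀ (x y : ℕ) (hx : x < n) (hy : y < n), x ≠ y → (U' n).arc v ⟨x, hx⟩ →
      (U' n).arc v ⟨y, hy⟩ → False := by
    intro x y hx hy hxy h1 h2
    exact hxy (by simpa using congrArg Fin.val (h _ _ h1 h2))
  have hvn := v.isLt
  rcases Nat.lt_or_ge (v : ℕ) 5 with h5 | h5
  · have : (v : ℕ) = 0 ∨ (v : ℕ) = 2 ∨ (v : ℕ) = 3 ∨ (v : ℕ) = 4 := by omega
    rcases this with h0 | h0 | h0 | h0
    · exact key 1 4 (by omega) (by omega) (by omega) (by simp [U', h0]) (by simp [U', h0])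
    · exact key 0 3 (by omega) (by omega) (by omega) (by simp [U', h0]) (by simp [U', h0])
    · exact key 0 1 (by omega) (by omega) (by omega) (by simp [U', h0]) (by simp [U', h0])
    · exact key 1 2 (by omega) (by omega) (by omega) (by simp [U', h0]) (by simp [U', h0])
  · refine key 0 1 (by omega) (by omega) (by omega) ?_ ?_
    · simp only [U']; omega
    · simp only [U']; omega

/-- A tournament with two vertices of out-degree at most one is not isomorphic to `U' n`. -/
theorem not_iso {n : ℕ} (hn : 5 ≤ n) (T : Tournament (Fin n)) (x y : Fin n) (hxy : x ≠ y)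
    (hx : ∀ a b, T.arc x a → T.arc x b → a = b) (hy : ∀ a b, T.arc y a → T.arc y b → a = b) :
    ¬ Iso T (U' n) := by
  rintro ⟨e, he⟩
  have key : ∀ z : Fin n, (∀ a b, T.arc z a → T.arc z b → a = b) → ((e z : Fin n) : ℕ) = 1 := by
    intro z hz
    apply one_of hn
    intro a b ha hb
    have h1 : T.arc z (e.symm a) := by rw [he]; simpa using ha
    have h2 : T.arc z (e.symm b) := by rw [he]; simpa using hb
    exact e.symm.injective (hz _ _ h1 h2)
  exact hxy (e.injective (Fin.ext ((key x hx).trans (key y hy).symm)))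

/-- For every `n ≥ 5` there are strong tournaments `T₁`, `T₂` on `n` vertices and a bijection of
their arcs that maps 4-circuits into 4-circuits, such that `T₂` is isomorphic neither to `T₁` nor to
the converse of `T₁`. -/
theorem result : ∀ n : ℕ, 5 ≤ n → ∃ (T₁ T₂ : Tournament (Fin n)) (φ : T₁.arcs ≃ T₂.arcs),
    T₁.Strong ∧ T₂.Strong ∧ MapsCircuits T₁ T₂ 4 φ ∧ ¬ Iso T₁ T₂ ∧ ¬ Iso T₁.converse T₂ := by
  intro n hn
  refine ⟨U n, U' n, phi n, ?_, ?_, ?_, ?_, ?_⟩
  · refine strong_of hn _ ?_ ?_ ?_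
    · intro i j h; simp only [U]; omega
    · intro i j h h'; simp only [U]; omega
    · intro i j h h'; simp only [U]; omega
  · refine strong_of hn _ ?_ ?_ ?_
    · intro i j h; simp only [U']; omega
    · intro i j h h'; simp only [U']; omega
    · intro i j h h'; simp only [U']; omega
  · rintro C ⟨v, hv, ha, rfl⟩
    have hmem : ∀ i, (v i, v (i + 1)) ∈ (U n).arcs := ha
    refine ⟨v, hv, ?_, ?_⟩
    · intro i
      have h1 := ha i
      have h2 := avoid v ha i
      simp only [U, U'] at h1 ⊢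
      omega
    · ext q
      constructor
      · rintro ⟨p, hp, ⟨i, rfl⟩, rfl⟩
        rw [phi_eq _ hp (avoid v ha i)]
        exact ⟨i, rfl⟩
      · rintro ⟨i, rfl⟩
        exact ⟨(v i, v (i + 1)), hmem i, ⟨i, rfl⟩, phi_eq _ _ (avoid v ha i)⟩
  · refine not_iso hn _ ⟨0, by omega⟩ ⟨1, by omega⟩ (by simp) ?_ ?_
    · intro a b h1 h2
      simp only [U] at h1 h2
      exact Fin.ext (by omega)
    · intro a b h1 h2
      simp only [U] at h1 h2
      exact Fin.ext (by omega)
  · refine not_iso hn _ ⟨n - 1, by omega⟩ ⟨n - 2, by omega⟩ (by simp; omega) ?_ ?_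
    · intro a b h1 h2
      have ha := a.isLt
      have hb := b.isLt
      simp only [U, converse] at h1 h2
      exact Fin.ext (by omega)
    · intro a b h1 h2
      have ha := a.isLt
      have hb := b.isLt
      simp only [U, converse] at h1 h2
      exact Fin.ext (by omega)

end Pool.Agent.Results.MP_ebd9af_co.ManyCounterexamples
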